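import Pool.Agent.Work.MP_0f1f76_lc.Defs
import Pool.Agent.Work.MP_0f1f76_lc.Main

namespace Pool.Agent.Work.MP_0f1f76_lc.Old.RowLocalLowerBound

open Pool.Agent.Work.MP_0f1f76_lc

/-- Let `R` be a randomized online algorithm for `n` rounds of `n × n` matrix-vector
multiplication over `𝔽₂`, in the cell-probe model with `S ≤ 2 ^ ℓ` cells of `w` bits (free
preprocessing, free computation, free memory updates between rounds).  Let the matrix and the
vectors be uniformly random, and assume that the probability that some output is wrong is at most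
`1/3` (this holds in particular if it is at most `1/3` on every input).

* The expected row cost (each probe charged the number of matrix rows on which the probed cell
  currently depends) is at least `n³ / (16 (w + ℓ))`.
* In particular, if every cell depends on at most `r` rows, then the expected total number of cell
  probes is at least `n³ / (16 r (w + ℓ))`. -/
theorem result {n S w ℓ : ℕ} (hn : 20 ≤ n) (hw : 1 ≤ w) (hS : S ≤ 2 ^ ℓ) (R : RandAlg n S w)
    (herr : avgInput R.errProb ≤ 1 / 3) :
    (n : ℝ) ^ 3 ≤ 16 * ((w : ℝ) + ℓ) * avgInput R.expRowCost ∧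
    ∀ r : ℕ, R.RowLocal r → (n : ℝ) ^ 3 ≤ 16 * ((w : ℝ) + ℓ) * r * avgInput R.expProbes := by
  have h := main_bound hn hw hS R herr
  refine ⟨h, fun r hr => h.trans ?_⟩
  have h1 := avgInput_expRowCost_le R hr
  have h0 : (0 : ℝ) ≤ 16 * ((w : ℝ) + ℓ) := by positivity
  calc 16 * ((w : ℝ) + ℓ) * avgInput R.expRowCost
      ≤ 16 * ((w : ℝ) + ℓ) * (r * avgInput R.expProbes) := mul_le_mul_of_nonneg_left h1 h0
    _ = _ := by ring

end Pool.Agent.Work.MP_0f1f76_lc.Old.RowLocalLowerBound
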